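import Pool.Agent.TH694.PN.Core

/-!
# The pinning number of a graph: the algorithm
-/

set_option autoImplicit false

namespace Pool.Agent.TH694.PN

open Pool.Agent Pool.Agent.NPC Pool.Agent.H598R2.Cnt Pool.Agent.H632R2.Cogirth
  Pool.Agent.TH694.GP

theorem count_ofFn {n : ℕ} (P : Finset (Fin n)) :
    ((List.ofFn fun i => decide (i ∈ P)).filter fun b => b).length = P.card := by
  rw [List.ofFn_eq_map, List.filter_map, List.length_map]
  have h1 : ((fun b : Bool => b) ∘ fun i : Fin n => decide (i ∈ P)) = fun i => decide (i ∈ P) := by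
    funext i
    rfl
  rw [h1]
  have h2 : ((List.finRange n).filter fun i => decide (i ∈ P)).toFinset = P := by
    ext x
    simp
  rw [← List.toFinset_card_of_nodup ((List.nodup_finRange n).filter _), h2]

theorem getD_ofFn {n : ℕ} (P : Finset (Fin n)) {i : ℕ} (hi : i < n) :
    (List.ofFn fun i => decide (i ∈ P)).getD i false = decide ((⟨i, hi⟩ : Fin n) ∈ P) := by
  rw [List.getD_eq_getElem _ _ (by simpa using hi)]
  simp

theorem goodT_iff {n : ℕ} (P : Finset (Fin n)) (t : ℕ × ℕ × ℕ) :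
    goodT (List.ofFn fun i => decide (i ∈ P)) (List.range n) t = true ↔
      t.1 ≠ t.2.1 ∧ t.1 ≠ t.2.2 ∧ t.2.1 ≠ t.2.2 ∧
        ∀ i : Fin n, i ∈ P → (i : ℕ) = t.1 ∨ (i : ℕ) = t.2.1 ∨ (i : ℕ) = t.2.2 := by
  unfold goodT
  simp only [Bool.and_eq_true, Bool.not_eq_true', decide_eq_false_iff_not, List.all_eq_true,
    List.mem_range, Bool.or_eq_true, decide_eq_true_eq, ne_eq, and_assoc]
  refine and_congr_right fun _ => and_congr_right fun _ => and_congr_right fun _ => ?_
  constructor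
  · intro h i hi
    rcases h i i.2 with h1 | h1
    · rw [getD_ofFn P i.2] at h1
      simp [hi] at h1
    · exact h1
  · intro h i hi
    by_cases h1 : (⟨i, hi⟩ : Fin n) ∈ P
    · exact Or.inr (h ⟨i, hi⟩ h1)
    · left
      rw [getD_ofFn P hi]
      simp [h1]

theorem tripT_spec {n : ℕ} (hn : 3 ≤ n) (P : Finset (Fin n)) (hP : P.card ≤ 3) :
    ∃ Q : Finset (Fin n), P ⊆ Q ∧ Q.card = 3 ∧
      (List.range n).map (fun i =>
        decide (i = (tripT (List.ofFn fun i => decide (i ∈ P)) (List.range n)).1) ||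
        (decide (i = (tripT (List.ofFn fun i => decide (i ∈ P)) (List.range n)).2.1) ||
        decide (i = (tripT (List.ofFn fun i => decide (i ∈ P)) (List.range n)).2.2))) =
      List.ofFn fun i => decide (i ∈ Q) := by
  set v := List.ofFn fun i => decide (i ∈ P) with hv
  set t := tripT v (List.range n) with ht
  have hne : t ∈ (triples (List.range n)).filter fun t => goodT v (List.range n) t := by
    obtain ⟨Q, hPQ, hQ⟩ := Finset.exists_superset_card_eq hP (by rwa [Fintype.card_fin])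
    obtain ⟨a, b, c, hab, hac, hbc, rfl⟩ := Finset.card_eq_three.1 hQ
    have hmem : ((a : ℕ), (b : ℕ), (c : ℕ)) ∈
        (triples (List.range n)).filter fun t => goodT v (List.range n) t := by
      rw [List.mem_filter]
      refine ⟨mem_triples.2 ⟨List.mem_range.2 a.2, List.mem_range.2 b.2, List.mem_range.2 c.2⟩,
        ?_⟩
      rw [hv, goodT_iff]
      refine ⟨fun h => hab (Fin.ext h), fun h => hac (Fin.ext h), fun h => hbc (Fin.ext h), ?_⟩
      intro i hi
      have := hPQ hi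
      simp only [Finset.mem_insert, Finset.mem_singleton] at this
      rcases this with rfl | rfl | rfl
      · exact Or.inl rfl
      · exact Or.inr (Or.inl rfl)
      · exact Or.inr (Or.inr rfl)
    have hpos : 0 < ((triples (List.range n)).filter
        fun t => goodT v (List.range n) t).length := List.length_pos_of_mem hmem
    rw [ht, tripT, List.getD_eq_getElem _ _ hpos]
    exact List.getElem_mem hpos
  rw [List.mem_filter, mem_triples, hv, goodT_iff] at hne
  obtain ⟨⟨h1, h2, h3⟩, h4, h5, h6, h7⟩ := hne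
  rw [List.mem_range] at h1 h2 h3
  refine ⟨{⟨t.1, h1⟩, ⟨t.2.1, h2⟩, ⟨t.2.2, h3⟩}, ?_, ?_, ?_⟩
  · intro i hi
    simp only [Finset.mem_insert, Finset.mem_singleton, Fin.ext_iff]
    exact h7 i hi
  · rw [Finset.card_eq_three]
    refine ⟨_, _, _, ?_, ?_, ?_, rfl⟩
    · simpa [Fin.ext_iff] using h4
    · simpa [Fin.ext_iff] using h5
    · simpa [Fin.ext_iff] using h6
  · apply List.ext_getElem
    · simp
    · intro i h8 h9
      simp only [List.getElem_map, List.getElem_range, List.getElem_ofFn, Finset.mem_insert,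
        Finset.mem_singleton, Fin.ext_iff, Bool.decide_or]

theorem search_spec {g : List (List Bool) → List Bool}
    (hg : ∀ (n : ℕ) (G : SimpleGraph (Fin n)), ∃ P : Finset (Fin n), CombGR (G ⊔ onGraph P) ∧
      (∀ P' : Finset (Fin n), CombGR (G ⊔ onGraph P') → P.card ≤ P'.card) ∧
      g (NPC.R671.adjMatrix G) = List.ofFn fun i => decide (i ∈ P))
    (n : ℕ) (G : SimpleGraph (Fin n)) : ∃ P : Finset (Fin n), CP G P ∧
      (∀ P' : Finset (Fin n), CP G P' → P.card ≤ P'.card) ∧
      searchT g (NPC.R671.adjMatrix G) = List.ofFn fun i => decide (i ∈ P) := by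
  have hlen : (NPC.R671.adjMatrix G).length = n := (edgesM_spec G).1
  unfold searchT
  rw [hlen]
  by_cases hn : n ≤ 3
  · rw [if_pos hn]
    refine ⟨Finset.univ, cp_univ G, ?_, ?_⟩
    · intro P' hP'
      rw [(cp_small hn).1 hP']
    · apply List.ext_getElem
      · simp
      · intro i h1 h2
        simp
  · rw [if_neg hn]
    have h4 : 4 ≤ n := by omega
    obtain ⟨P, hP, hmin, hgP⟩ := hg n G
    rw [hgP]
    unfold padT
    rw [count_ofFn]
    by_cases h3 : 3 ≤ P.card
    · rw [if_pos h3]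
      exact ⟨P, (cp_big h4).2 ⟨h3, hP⟩, fun P' hP' => hmin P' ((cp_big h4).1 hP').2, rfl⟩
    · rw [if_neg h3]
      obtain ⟨Q, hPQ, hQ, hout⟩ := tripT_spec (by omega) P (by omega)
      refine ⟨Q, (cp_big h4).2 ⟨hQ.ge, combGR_mono h4 (sup_le_sup_left (onGraph_mono hPQ) G) hP⟩,
        ?_, hout⟩
      intro P' hP'
      rw [hQ]
      exact ((cp_big h4).1 hP').1

theorem poly_goodT {α : Type} [TEnc α] {v : α → List Bool} {l : α → List ℕ}
    {t : α → ℕ × ℕ × ℕ} (hv : NPC.Poly v) (hl : NPC.Poly l) (ht : NPC.Poly t) :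
    NPC.Poly fun a => goodT (v a) (l a) (t a) := by
  unfold goodT
  refine NPC.Poly.and (NPC.Poly.and ?_ (NPC.Poly.and ?_ ?_)) ?_
  · exact NPC.Poly.not (NPC.Poly.decide_eq (NPC.Poly.fst ht) (NPC.Poly.fst (NPC.Poly.snd ht)))
  · exact NPC.Poly.not (NPC.Poly.decide_eq (NPC.Poly.fst ht) (NPC.Poly.snd (NPC.Poly.snd ht)))
  · exact NPC.Poly.not (NPC.Poly.decide_eq (NPC.Poly.fst (NPC.Poly.snd ht))
      (NPC.Poly.snd (NPC.Poly.snd ht)))
  · refine NPC.Poly.all (p := fun a i => !(v a).getD i false || (decide (i = (t a).1) ||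
      (decide (i = (t a).2.1) || decide (i = (t a).2.2)))) hl ?_
    have hF : NPC.Poly (fun x : α × ℕ => x.1) := NPC.Poly.fst NPC.Poly.id
    have hS : NPC.Poly (fun x : α × ℕ => x.2) := NPC.Poly.snd NPC.Poly.id
    have hv' : NPC.Poly (fun x : α × ℕ => v x.1) := hv.comp hF
    have ht' : NPC.Poly (fun x : α × ℕ => t x.1) := ht.comp hF
    refine NPC.Poly.or (NPC.Poly.not (NPC.Poly.getD hv' hS (NPC.Poly.const false)))
      (NPC.Poly.or (NPC.Poly.decide_eq hS (NPC.Poly.fst ht')) (NPC.Poly.or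
        (NPC.Poly.decide_eq hS (NPC.Poly.fst (NPC.Poly.snd ht')))
        (NPC.Poly.decide_eq hS (NPC.Poly.snd (NPC.Poly.snd ht')))))

theorem poly_triples {α : Type} [TEnc α] {l : α → List ℕ} (hl : NPC.Poly l) :
    NPC.Poly fun a => triples (l a) := by
  unfold triples
  refine NPC.Poly.flatMap (F := fun a x => (l a).flatMap fun y => (l a).map fun z => (x, y, z))
    hl ?_
  have h1 : NPC.Poly (fun x : α × ℕ => l x.1) := hl.comp (NPC.Poly.fst NPC.Poly.id)
  refine NPC.Poly.flatMap (F := fun (a : α × ℕ) y => (l a.1).map fun z => (a.2, y, z)) h1 ?_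
  have h2 : NPC.Poly (fun x : (α × ℕ) × ℕ => l x.1.1) :=
    h1.comp (NPC.Poly.fst NPC.Poly.id)
  refine NPC.Poly.map (F := fun (a : (α × ℕ) × ℕ) z => (a.1.2, a.2, z)) h2 ?_
  have h3 : NPC.Poly (fun x : ((α × ℕ) × ℕ) × ℕ => x.1) := NPC.Poly.fst NPC.Poly.id
  exact NPC.Poly.pair (NPC.Poly.snd (NPC.Poly.fst h3)) (NPC.Poly.pair (NPC.Poly.snd h3)
    (NPC.Poly.snd NPC.Poly.id))

theorem poly_tripT {α : Type} [TEnc α] {v : α → List Bool} {l : α → List ℕ}
    (hv : NPC.Poly v) (hl : NPC.Poly l) : NPC.Poly fun a => tripT (v a) (l a) := by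
  unfold tripT
  refine NPC.Poly.getD (NPC.Poly.filter (p := fun a t => goodT (v a) (l a) t)
    (poly_triples hl) ?_) (NPC.Poly.const 0) (NPC.Poly.const (0, 0, 0))
  have hF : NPC.Poly (fun x : α × (ℕ × ℕ × ℕ) => x.1) := NPC.Poly.fst NPC.Poly.id
  exact poly_goodT (hv.comp hF) (hl.comp hF) (NPC.Poly.snd NPC.Poly.id)

theorem poly_padT {α : Type} [TEnc α] {v : α → List Bool} {l : α → List ℕ}
    (hv : NPC.Poly v) (hl : NPC.Poly l) : NPC.Poly fun a => padT (v a) (l a) := by
  unfold padT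
  refine NPC.Poly.ite ?_ hv ?_
  · exact NPC.Poly.decide_le (NPC.Poly.const 3) (NPC.Poly.length (NPC.Poly.filter
      (p := fun _ b => b) hv (NPC.Poly.snd NPC.Poly.id)))
  · refine NPC.Poly.map (F := fun a i => decide (i = (tripT (v a) (l a)).1) ||
      (decide (i = (tripT (v a) (l a)).2.1) || decide (i = (tripT (v a) (l a)).2.2))) hl ?_
    have hS : NPC.Poly (fun x : α × ℕ => x.2) := NPC.Poly.snd NPC.Poly.id
    have ht : NPC.Poly (fun x : α × ℕ => tripT (v x.1) (l x.1)) :=
      (poly_tripT hv hl).comp (NPC.Poly.fst NPC.Poly.id)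
    exact NPC.Poly.or (NPC.Poly.decide_eq hS (NPC.Poly.fst ht)) (NPC.Poly.or
      (NPC.Poly.decide_eq hS (NPC.Poly.fst (NPC.Poly.snd ht)))
      (NPC.Poly.decide_eq hS (NPC.Poly.snd (NPC.Poly.snd ht))))

theorem poly_searchT {g : List (List Bool) → List Bool} (hg : NPC.Poly g) :
    NPC.Poly (searchT g) := by
  unfold searchT
  refine NPC.Poly.ite ?_ ?_ ?_
  · exact NPC.Poly.decide_le (NPC.Poly.length NPC.Poly.id) (NPC.Poly.const 3)
  · exact NPC.Poly.map (F := fun _ _ => true) (NPC.Poly.range_length NPC.Poly.id)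
      (NPC.Poly.const true)
  · exact poly_padT hg (NPC.Poly.range_length NPC.Poly.id)

/-- the algorithm which finds a smallest pinning set -/
theorem exists_search : ∃ g : List (List Bool) → List Bool, NPC.Poly g ∧
    ∀ (n : ℕ) (G : SimpleGraph (Fin n)), ∃ P : Finset (Fin n), CP G P ∧
      (∀ P' : Finset (Fin n), CP G P' → P.card ≤ P'.card) ∧
      g (NPC.R671.adjMatrix G) = List.ofFn fun i => decide (i ∈ P) := by
  obtain ⟨g, h1, h2⟩ := search_graph
  exact ⟨searchT g, poly_searchT h1, search_spec h2⟩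

end Pool.Agent.TH694.PN
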