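import Pool.Agent.TH694.GP.Final2

/-!
# The pinning number of a graph: combinatorial part and algorithm
-/

set_option autoImplicit false

namespace Pool.Agent.TH694.PN

open Pool.Agent Pool.Agent.NPC Pool.Agent.H598R2.Cnt Pool.Agent.H632R2.Cogirth
  Pool.Agent.TH694.GP

theorem prs_mono {n : ℕ} {G H : SimpleGraph (Fin n)} (h : G ≤ H) : prs G ⊆ prs H := by
  intro e he
  rw [L1.mem_prs] at he ⊢
  obtain ⟨u, v, huv, rfl⟩ := he
  exact ⟨u, v, h huv, rfl⟩

theorem rigid_mono {n : ℕ} (hn : 2 ≤ n) {G H : SimpleGraph (Fin n)} (h : G ≤ H)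
    (hG : RigidInPlane G) : RigidInPlane H := by
  have hc : 2 ≤ Fintype.card (Fin n) := by rw [Fintype.card_fin]; exact hn
  rw [rigid_iff _ hc] at hG ⊢
  exact hG.mono (prs_mono h)

theorem combGR_mono {n : ℕ} (hn : 4 ≤ n) {G H : SimpleGraph (Fin n)} (h : G ≤ H)
    (hG : CombGR G) : CombGR H := by
  rcases hG with ⟨h3, -⟩ | ⟨-, hc, hr, he⟩
  · omega
  refine Or.inr ⟨hn, fun S hS => (hc S hS).mono ?_, rigid_mono (by omega) h hr, ?_⟩
  · intro u v huv
    exact h huv
  · intro e _
    by_cases hG : e ∈ G.edgeSet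
    · refine rigid_mono (by omega) ?_ (he e hG)
      exact SimpleGraph.deleteEdges_mono h
    · refine rigid_mono (by omega) ?_ hr
      intro u v huv
      rw [SimpleGraph.deleteEdges_adj]
      refine ⟨h huv, ?_⟩
      rintro rfl
      exact hG huv

theorem onGraph_mono {n : ℕ} {P Q : Finset (Fin n)} (h : P ⊆ Q) : onGraph P ≤ onGraph Q := by
  intro u v huv
  unfold onGraph at huv ⊢
  rw [SimpleGraph.fromRel_adj] at huv ⊢
  exact ⟨huv.1, huv.2.imp (fun h1 => ⟨h h1.1, h h1.2⟩) (fun h1 => ⟨h h1.1, h h1.2⟩)⟩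

theorem combGR_top {n : ℕ} : CombGR (⊤ : SimpleGraph (Fin n)) := by
  obtain ⟨g, -, hg⟩ := search_graph
  obtain ⟨P, hP, -⟩ := hg n ⊤
  rwa [top_sup_eq] at hP

theorem onGraph_univ {n : ℕ} : onGraph (Finset.univ : Finset (Fin n)) = ⊤ := by
  ext u v
  unfold onGraph
  rw [SimpleGraph.fromRel_adj, SimpleGraph.top_adj]
  simp

/-- the combinatorial form of pinning -/
def CP {n : ℕ} (G : SimpleGraph (Fin n)) (P : Finset (Fin n)) : Prop :=
  P = Finset.univ ∨ (3 ≤ P.card ∧ 4 ≤ n ∧ CombGR (G ⊔ onGraph P))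

theorem cp_univ {n : ℕ} (G : SimpleGraph (Fin n)) : CP G Finset.univ := Or.inl rfl

theorem cp_small {n : ℕ} (hn : n ≤ 3) {G : SimpleGraph (Fin n)} {P : Finset (Fin n)} :
    CP G P ↔ P = Finset.univ := by
  unfold CP
  constructor
  · rintro (h | ⟨-, h, -⟩)
    · exact h
    · omega
  · exact Or.inl

theorem cp_big {n : ℕ} (hn : 4 ≤ n) {G : SimpleGraph (Fin n)} {P : Finset (Fin n)} :
    CP G P ↔ 3 ≤ P.card ∧ CombGR (G ⊔ onGraph P) := by
  unfold CP
  constructor
  · rintro (rfl | ⟨h1, -, h2⟩)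
    · rw [Finset.card_univ, Fintype.card_fin, onGraph_univ, sup_top_eq]
      exact ⟨by omega, combGR_top⟩
    · exact ⟨h1, h2⟩
  · rintro ⟨h1, h2⟩
    exact Or.inr ⟨h1, hn, h2⟩

/-- the numbers of the members of a list of triples over `range n` -/
def triples (l : List ℕ) : List (ℕ × ℕ × ℕ) :=
  l.flatMap fun a => l.flatMap fun b => l.map fun c => (a, b, c)

theorem mem_triples {l : List ℕ} {t : ℕ × ℕ × ℕ} :
    t ∈ triples l ↔ t.1 ∈ l ∧ t.2.1 ∈ l ∧ t.2.2 ∈ l := by
  obtain ⟨a, b, c⟩ := t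
  unfold triples
  simp only [List.mem_flatMap, List.mem_map, Prod.mk.injEq]
  constructor
  · rintro ⟨a', ha, b', hb, c', hc, rfl, rfl, rfl⟩
    exact ⟨ha, hb, hc⟩
  · rintro ⟨ha, hb, hc⟩
    exact ⟨a, ha, b, hb, c, hc, rfl, rfl, rfl⟩

/-- does the triple consist of different numbers and contain all members of the set given by the
vector `v`? -/
def goodT (v : List Bool) (l : List ℕ) (t : ℕ × ℕ × ℕ) : Bool :=
  (!(decide (t.1 = t.2.1)) && (!(decide (t.1 = t.2.2)) && !(decide (t.2.1 = t.2.2)))) &&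
    l.all fun i => !(v.getD i false) || (decide (i = t.1) || (decide (i = t.2.1) ||
      decide (i = t.2.2)))

/-- the chosen triple -/
def tripT (v : List Bool) (l : List ℕ) : ℕ × ℕ × ℕ :=
  ((triples l).filter fun t => goodT v l t).getD 0 (0, 0, 0)

/-- enlarge the set given by `v` to a set with at least three members -/
def padT (v : List Bool) (l : List ℕ) : List Bool :=
  if 3 ≤ (v.filter fun b => b).length then v else
    l.map fun i => decide (i = (tripT v l).1) || (decide (i = (tripT v l).2.1) ||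
      decide (i = (tripT v l).2.2))

/-- the search algorithm -/
def searchT (g : List (List Bool) → List Bool) (M : List (List Bool)) : List Bool :=
  if M.length ≤ 3 then (List.range M.length).map fun _ => true else
    padT (g M) (List.range M.length)

end Pool.Agent.TH694.PN
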